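import Pool.Agent.D0H51.CC.Cnt

/-!
# Cunningham chains, and trees, of primes with generic ratios

Let `l₁, …, l_r > 1` be real numbers and let a rooted tree with the vertices `0, 1, …, r` be given (the parent
`π i` of the vertex `i + 1` is one of `0, …, i`). Put the natural number `n` at the root and
`X (i + 1) = ⌈l_i X (π i)⌉ - 1` at the other vertices. For the path (`π i = i`) and `l_1 = … = l_r = 2` this is the
Cunningham chain of the second kind `n, 2 n - 1, 2 (2 n - 1) - 1, …`; Q1 asks whether, for every `r`, it consists of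
primes for some `n`.

Here: for almost every `(l₁, …, l_r)` in `(1, ∞)^r` all the vertices are prime for `∼ N / (log N) ^ (r + 1)` of the
roots `n ≤ N`, for every tree. More generally the counts of the `n ≤ N` in an ARBITRARY set `A` with all `X (i + 1)`
prime are the expected ones, with arbitrary bounded weights and all powers of `log N` saved.

Proof: the engine `D0H91.MG` of helper91 (one dilation `⌊t f(n)⌋` of an arbitrary sequence, arbitrary bounded
weights, almost all `t`), applied to the last edge of the tree with the sequence `f(n) = X (π r)`, which depends on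
the ratios already chosen, and with weights containing the conditions at all the other vertices; Fubini's theorem;
Abel summation for the density of the last vertex, which is monotone in `n`.
-/

set_option autoImplicit false

namespace Pool.Agent.Results.MP_9f2731_nt.GenericRatios

open Filter Topology MeasureTheory Finset
open Pool.Agent.D0H91.MG
open Pool.Agent.D0H51.CC

theorem weights (r : ℕ) (π : Fin r → Fin (r + 1)) (hπ : ∀ i, (π i : ℕ) ≤ i)
    (X : (Fin r → ℝ) → ℕ → Fin (r + 1) → ℕ) (h0 : ∀ l n, X l n 0 = n)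
    (hX : ∀ l n (i : Fin r), X l n i.succ = ⌈l i * (X l n (π i) : ℝ)⌉₊ - 1)
    (a : ℕ → ℂ) (M : ℝ) (ha : ∀ n, ‖a n‖ ≤ M) :
    ∀ᵐ l : Fin r → ℝ, (∀ i, 1 < l i) → ∀ K : ℕ, ∀ᶠ N : ℕ in atTop,
        ‖(∑ n ∈ Icc 2 N with ∀ i : Fin r, (X l n i.succ).Prime, a n) -
          ∑ n ∈ Icc 2 N, a n * ((∏ i, 1 / Real.log (l i * (X l n (π i) : ℝ)) : ℝ) : ℂ)‖ ≤
            N / Real.log N ^ K := by
  have hM0 : 0 ≤ M := (norm_nonneg _).trans (ha 0)
  have h1 := tree_several (par π) (par_le π hπ) r (fun n => if 2 ≤ n then a n else 0) M (fun n => by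
    split_ifs
    · exact ha n
    · rw [norm_zero]; exact hM0)
  filter_upwards [h1, ae_irrational r] with l hl hirr hpos K
  filter_upwards [hl hpos K, eventually_ge_atTop 2] with N h2 hN2
  refine le_trans (le_of_eq ?_) h2
  congr 1
  have e0 : ∑ n ∈ Icc 1 N, (if 2 ≤ n then a n else 0) * (IP (par π) (ext l) r n - GP (par π) (ext l) r n) =
      ∑ n ∈ Icc 2 N, a n * (IP (par π) (ext l) r n - GP (par π) (ext l) r n) := by
    have e1 : Icc 2 N = (Icc 1 N).filter (fun n => 2 ≤ n) := by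
      ext n
      rw [Finset.mem_filter, Finset.mem_Icc, Finset.mem_Icc]
      omega
    rw [e1, Finset.sum_filter]
    refine Finset.sum_congr rfl fun n _ => ?_
    split_ifs
    · rfl
    · rw [zero_mul]
  rw [e0, Finset.sum_filter, ← Finset.sum_sub_distrib]
  refine Finset.sum_congr rfl fun n hn => ?_
  rw [Finset.mem_Icc] at hn
  have hnode := nodes_eq π hπ l hpos hirr (X l n) n (by omega) (h0 l n) (hX l n)
  have e2 : (∀ i : Fin r, (X l n i.succ).Prime) ↔
      ∀ i, i < r → (nd (par π) (ext l) n (i + 1)).Prime := by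
    constructor
    · intro h i hi
      have h3 := h ⟨i, hi⟩
      rw [hnode] at h3
      exact h3
    · intro h i
      rw [hnode]
      exact h i i.2
  have e3 : GP (par π) (ext l) r n = ((∏ i, 1 / Real.log (l i * (X l n (π i) : ℝ)) : ℝ) : ℂ) := by
    unfold GP
    rw [Finset.prod_range]
    push_cast
    refine Finset.prod_congr rfl fun i _ => ?_
    rw [hnode (π i), ext_lt l i i.2, par_fin]
    have hmono := nd_mono (par π) (par_le π hπ) (ext l) (π i : ℕ) fun j _ => ext_ge l hpos j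
    have b1 : n ≤ nd (par π) (ext l) n (π i : ℕ) := hmono.le_apply
    have b2 : (2 : ℝ) ≤ (nd (par π) (ext l) n (π i : ℕ) : ℝ) := by exact_mod_cast hn.1.trans b1
    have b3 : 2 ≤ l i * (nd (par π) (ext l) n (π i : ℕ) : ℝ) := by nlinarith [hpos i]
    unfold gd
    rw [if_pos b3]
    push_cast
    rfl
  rw [e3, IP_eq]
  by_cases h : ∀ i : Fin r, (X l n i.succ).Prime
  · rw [if_pos h, if_pos (e2.1 h)]
    ring
  · rw [if_neg h, if_neg (fun h' => h (e2.2 h'))]
    ring

theorem sets (r : ℕ) (π : Fin r → Fin (r + 1)) (hπ : ∀ i, (π i : ℕ) ≤ i)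
    (X : (Fin r → ℝ) → ℕ → Fin (r + 1) → ℕ) (h0 : ∀ l n, X l n 0 = n)
    (hX : ∀ l n (i : Fin r), X l n i.succ = ⌈l i * (X l n (π i) : ℝ)⌉₊ - 1) (A : Set ℕ)
    [DecidablePred (· ∈ A)] :
    ∀ᵐ l : Fin r → ℝ, (∀ i, 1 < l i) → ∀ (s : ℕ) (S : ℝ),
      (Tendsto (fun N : ℕ => Real.log N ^ s / N * (((Icc 1 N).filter (· ∈ A)).card : ℝ)) atTop (𝓝 S) ↔
       Tendsto (fun N : ℕ => Real.log N ^ (s + r) / N *
        (((Icc 1 N).filter (fun n => n ∈ A ∧ ∀ i : Fin r, (X l n i.succ).Prime)).card : ℝ)) atTop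
          (𝓝 S)) := by
  filter_upwards [transfer_tree (par π) (par_le π hπ) r A, ae_irrational r] with l hl hirr hpos s S
  have h1 := hl hpos s S
  refine Iff.trans (tendsto_congr fun N => ?_) (h1.trans (tendsto_congr fun N => ?_))
  · congr 2
    refine congrArg Finset.card ?_
    ext n
    simp only [Finset.mem_filter]
  congr 2
  refine congrArg Finset.card ?_
  ext n
  simp only [Finset.mem_filter, Finset.mem_Icc]
  constructor
  · rintro ⟨h3, h4, h5⟩
    refine ⟨h3, h4, fun i => ?_⟩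
    rw [nodes_eq π hπ l hpos hirr (X l n) n h3.1 (h0 l n) (hX l n)]
    exact h5 i i.2
  · rintro ⟨h3, h4, h5⟩
    refine ⟨h3, h4, fun i hi => ?_⟩
    have h6 := h5 ⟨i, hi⟩
    rw [nodes_eq π hπ l hpos hirr (X l n) n h3.1 (h0 l n) (hX l n)] at h6
    exact h6

/-- **Main result.** -/
theorem result (r : ℕ) (π : Fin r → Fin (r + 1)) (hπ : ∀ i, (π i : ℕ) ≤ i)
    (X : (Fin r → ℝ) → ℕ → Fin (r + 1) → ℕ) (h0 : ∀ l n, X l n 0 = n)
    (hX : ∀ l n (i : Fin r), X l n i.succ = ⌈l i * (X l n (π i) : ℝ)⌉₊ - 1) :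
    (∀ (a : ℕ → ℂ) (M : ℝ), (∀ n, ‖a n‖ ≤ M) →
      ∀ᵐ l ∂((volume : Measure (Fin r → ℝ)).restrict {l | ∀ i, 1 < l i}), ∀ K : ℕ, ∀ᶠ N : ℕ in atTop,
        ‖(∑ n ∈ Icc 2 N with ∀ i : Fin r, (X l n i.succ).Prime, a n) -
          ∑ n ∈ Icc 2 N, a n * ((∏ i, 1 / Real.log (l i * (X l n (π i) : ℝ)) : ℝ) : ℂ)‖ ≤
            N / Real.log N ^ K) ∧
    (∀ (A : Set ℕ) [DecidablePred (· ∈ A)],
      ∀ᵐ l ∂((volume : Measure (Fin r → ℝ)).restrict {l | ∀ i, 1 < l i}), ∀ (s : ℕ) (S : ℝ),
      (Tendsto (fun N : ℕ => Real.log N ^ s / N * (((Icc 1 N).filter (· ∈ A)).card : ℝ)) atTop (𝓝 S) ↔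
       Tendsto (fun N : ℕ => Real.log N ^ (s + r) / N *
        (((Icc 1 N).filter (fun n => n ∈ A ∧ ∀ i : Fin r, (X l n i.succ).Prime)).card : ℝ)) atTop
          (𝓝 S))) ∧
    (∀ᵐ l ∂((volume : Measure (Fin r → ℝ)).restrict {l | ∀ i, 1 < l i}),
      Tendsto (fun N : ℕ => Real.log N ^ (r + 1) / N *
        (((Icc 1 N).filter (fun n => ∀ i : Fin (r + 1), (X l n i).Prime)).card : ℝ)) atTop (𝓝 1)) := by
  refine ⟨fun a M ha => ?_, fun A _ => ?_, ?_⟩
  · rw [ae_restrict_iff' (gt_one_meas r)]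
    exact weights r π hπ X h0 hX a M ha
  · rw [ae_restrict_iff' (gt_one_meas r)]
    exact sets r π hπ X h0 hX A
  · rw [ae_restrict_iff' (gt_one_meas r)]
    filter_upwards [sets r π hπ X h0 hX {n : ℕ | n.Prime}] with l hl hpos
    have h1 := (hl hpos 1 1).1 pnt
    rw [add_comm 1 r] at h1
    refine (tendsto_congr fun N => ?_).1 h1
    congr 2
    refine congrArg Finset.card ?_
    ext n
    rw [Finset.mem_filter, Finset.mem_filter]
    constructor
    · rintro ⟨h3, h4, h5⟩
      refine ⟨h3, fun i => ?_⟩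
      refine Fin.cases ?_ (fun j => h5 j) i
      rw [h0]
      exact h4
    · rintro ⟨h3, h4⟩
      refine ⟨h3, ?_, fun i => h4 i.succ⟩
      have := h4 0
      rw [h0] at this
      exact this

end Pool.Agent.Results.MP_9f2731_nt.GenericRatios
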