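import Mathlib
import Pool.Agent.D0H16.CC.Up

/-!
# The longest Cunningham chains of the second kind in sequential random models of the primes

The question is whether there are Cunningham chains of the second kind (`p, 2 p - 1, 2 (2 p - 1) - 1, ...`, all
prime) of every length.  We answer it, with the exact order of growth of the longest chain and in all short
intervals, for EVERY sequential random model of the primes: the integers are decided one after the other, and
the conditional probability of choosing `n + 1` given all earlier decisions is about `w(n) / log n` if `n + 1`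
is coprime to a modulus `Q(n + 1)`, and at most about `w(n) / log n` for all `n`.  No independence is
assumed.  Included are Cramer's model (`Q = w = 1`), the models sieved by a fixed modulus (`w = Q / φ(Q)`) and
the models with a growing sieve, where `Q(n)` is the product of the primes up to `z(n) = o(log n / log log n)`
and `w(n) = ∏_{q ≤ z(n)} (1 - 1/q)⁻¹`, which may tend to infinity.

Almost surely the longest chain starting below `x` has length `log x / (log log x - log w(x) + o(1))`, and every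
interval `(x, x + x ^ θ]` contains starts of chains of length `θ log x / (log log x - log w(x) + o(1))`.
-/

set_option autoImplicit false

namespace Pool.Agent.Results.MP_9f2731_nt.ModelRecords

open MeasureTheory Filter Set
open scoped Topology

/-- The first `k` terms `p, 2 p - 1, 2 (2 p - 1) - 1, ...` of the chain of the second kind which starts at `p`
belong to `S`. -/
def ChainFrom (S : Set ℕ) (p k : ℕ) : Prop := ∀ i < k, (fun m : ℕ => 2 * m - 1)^[i] p ∈ S

lemma iter_eq (n i : ℕ) : (fun m : ℕ => 2 * m - 1)^[i] (n + 1) = 2 ^ i * n + 1 := by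
  induction i with
  | zero => simp
  | succ i ih =>
    rw [Function.iterate_succ_apply', ih]
    show 2 * (2 ^ i * n + 1) - 1 = 2 ^ (i + 1) * n + 1
    have : 2 ^ (i + 1) * n = 2 * (2 ^ i * n) := by ring
    omega

lemma chain_iff {Ω : Type} (A : ℕ → Set Ω) (ω : Ω) (n k : ℕ) :
    ChainFrom {m | ω ∈ A m} (n + 1) k ↔ Pool.Agent.D0H16.CC.Ch A n k ω := by
  unfold ChainFrom Pool.Agent.D0H16.CC.Ch
  refine forall_congr' fun i => forall_congr' fun _ => ?_
  rw [iter_eq]
  rfl

open Classical in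
lemma count_eq {Ω : Type} (A : ℕ → Set Ω) (ω : Ω) (x H k : ℕ) :
    ((Finset.Ioc x (x + H)).filter (fun p => ChainFrom {m | ω ∈ A m} p k)).card =
      Pool.Agent.D0H16.CC.S0 A x H k ω := by
  unfold Pool.Agent.D0H16.CC.S0
  symm
  refine Finset.card_bij (fun n _ => n + 1) ?_ ?_ ?_
  · intro n hn
    obtain ⟨h1, h2⟩ := Finset.mem_filter.1 hn
    have h3 := Finset.mem_Ico.1 h1
    exact Finset.mem_filter.2 ⟨Finset.mem_Ioc.2 (by omega), (chain_iff A ω n k).2 h2⟩
  · intro a _ b _ h
    omega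
  · intro p hp
    obtain ⟨h1, h2⟩ := Finset.mem_filter.1 hp
    have h3 := Finset.mem_Ioc.1 h1
    have h4 : p - 1 + 1 = p := by omega
    refine ⟨p - 1, Finset.mem_filter.2 ⟨Finset.mem_Ico.2 (by omega), ?_⟩, h4⟩
    rw [← chain_iff, h4]
    exact h2

open Classical in
/-- **The longest Cunningham chains of the second kind in sequential random models of the primes.**  Let `A n` be
the event that `n` is chosen, adapted to a filtration `ℱ`.  Let `Q(n)` be natural numbers all of whose prime factors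
are at most `z(n) = o(log n / log log n)`, and let `w(n) > 0` with `log w(n) = o(log log n)` and
`w(m) / w(x) → 1` uniformly for `x ≤ m ≤ x ^ (1 + δ)` as `x → ∞` and `δ → 0`.  Almost surely, let the
conditional probability of `A (n + 1)` given `ℱ n`, times `log n / w(n)`, have lower limit at least `c > 0` along the
`n` with `n + 1` coprime to `Q(n + 1)`, and upper limit at most `C` along all `n`.  Then almost surely, for every
`0 < ε < 1`:
(1) for all large `x`, ALL `H` with `x ^ ε ≤ H ≤ x` and all `k ≤ log H / (log log x - log w(x) - log c + ε)` the interval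
`(x, x + H]` contains a start of a chain of length `k`, and at least
`H exp (-k (log log x - log w(x) - log c + ε) - ε log x / log log x)` of them;
(2) for all large `x` every chain which starts at `2 ≤ p ≤ x` has length
`k ≤ log x / (log log x - log w(x) - log C - ε)`.
If `c = C` these bounds agree to within `o(1)` in the denominators. -/
theorem result {Ω : Type} [mΩ : MeasurableSpace Ω] (μ : Measure Ω) [IsProbabilityMeasure μ]
    (ℱ : Filtration ℕ mΩ) (A : ℕ → Set Ω) (hA : ∀ n, MeasurableSet[ℱ n] (A n))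
    (Q z : ℕ → ℕ) (hQ : ∀ n q : ℕ, q.Prime → q ∣ Q n → q ≤ z n)
    (hz : Tendsto (fun n : ℕ => (z n : ℝ) * Real.log (Real.log n) / Real.log n) atTop (𝓝 0))
    (w : ℕ → ℝ) (hw0 : ∀ n, 0 < w n)
    (hw1 : Tendsto (fun n : ℕ => Real.log (w n) / Real.log (Real.log n)) atTop (𝓝 0))
    (hw2 : ∀ ε : ℝ, 0 < ε → ∃ δ : ℝ, 0 < δ ∧ ∀ᶠ x : ℕ in atTop, ∀ m : ℕ, x ≤ m → (m : ℝ) ≤ (x : ℝ) ^ (1 + δ) →
      |Real.log (w m) - Real.log (w x)| ≤ ε)
    (c C : ℝ) (hc : 0 < c) (hC : 0 < C)
    (hlow : ∀ᵐ ω ∂μ, ∀ c' : ℝ, c' < c → ∀ᶠ n : ℕ in atTop, Nat.Coprime (n + 1) (Q (n + 1)) →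
      c' ≤ (μ[(A (n + 1)).indicator (fun _ => (1 : ℝ)) | ℱ n]) ω * Real.log n / w n)
    (hup : ∀ᵐ ω ∂μ, ∀ C' : ℝ, C < C' → ∀ᶠ n : ℕ in atTop,
      (μ[(A (n + 1)).indicator (fun _ => (1 : ℝ)) | ℱ n]) ω * Real.log n / w n ≤ C') :
    ∀ᵐ ω ∂μ, ∀ ε : ℝ, 0 < ε → ε < 1 →
      (∀ᶠ x : ℕ in atTop, ∀ H k : ℕ, (x : ℝ) ^ ε ≤ H → H ≤ x →
        k * (Real.log (Real.log x) - Real.log (w x) - Real.log c + ε) ≤ Real.log H →
        1 ≤ ((Finset.Ioc x (x + H)).filter (fun p => ChainFrom {n | ω ∈ A n} p k)).card ∧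
        (H : ℝ) * Real.exp (-(k * (Real.log (Real.log x) - Real.log (w x) - Real.log c + ε) +
            ε * (Real.log x / Real.log (Real.log x)))) ≤
          ((Finset.Ioc x (x + H)).filter (fun p => ChainFrom {n | ω ∈ A n} p k)).card) ∧
      (∀ᶠ x : ℕ in atTop, ∀ p k : ℕ, 2 ≤ p → p ≤ x → ChainFrom {n | ω ∈ A n} p k →
        k * (Real.log (Real.log x) - Real.log (w x) - Real.log C - ε) ≤ Real.log x) := by
  have hL := Pool.Agent.D0H16.CC.tL
  -- the two statements for `ε = 1 / (r + 2)`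
  have key : ∀ r : ℕ, ∀ᵐ ω ∂μ, (∀ᶠ x : ℕ in atTop, ∀ H k : ℕ, (x : ℝ) ^ (1 / ((r : ℝ) + 2)) ≤ H → H ≤ x →
        k * (Pool.Agent.D0H16.CC.Del w c x + 1 / ((r : ℝ) + 2)) ≤ Real.log H →
        1 ≤ Pool.Agent.D0H16.CC.S0 A x H k ω ∧
        (H : ℝ) * Real.exp (-(k * (Pool.Agent.D0H16.CC.Del w c x + 1 / ((r : ℝ) + 2)) +
            1 / ((r : ℝ) + 2) * (Real.log x / Real.log (Real.log x)))) ≤ Pool.Agent.D0H16.CC.S0 A x H k ω) ∧
      (∀ᶠ x : ℕ in atTop, ∀ n k : ℕ, 1 ≤ n → n ≤ x → Pool.Agent.D0H16.CC.Ch A n k ω →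
        k * (Pool.Agent.D0H16.CC.Del w C x - 1 / ((r : ℝ) + 2)) ≤ Real.log x) := by
    intro r
    set ε : ℝ := 1 / ((r : ℝ) + 2) with hεdef
    have hε : 0 < ε := by positivity
    have hε1 : ε ≤ 1 := by
      rw [hεdef, div_le_one (by positivity)]
      have : (0 : ℝ) ≤ r := Nat.cast_nonneg r
      linarith
    -- constants
    set c' : ℝ := c * Real.exp (-(ε / 2)) with hc'
    have hc'0 : 0 < c' := by positivity
    have hc'c : c' < c := by
      have h1 : Real.exp (-(ε / 2)) < 1 := by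
        have := Real.exp_lt_exp.2 (show -(ε / 2) < 0 by linarith)
        rwa [Real.exp_zero] at this
      calc c' < c * 1 := mul_lt_mul_of_pos_left h1 hc
        _ = c := mul_one c
    have hlc : Real.log c' = Real.log c - ε / 2 := by
      rw [hc', Real.log_mul hc.ne' (Real.exp_pos _).ne', Real.log_exp]
      ring
    set C' : ℝ := C * Real.exp (ε / 4) with hC'
    have hC'0 : 0 < C' := by positivity
    have hC'C : C < C' := by
      have h1 : 1 < Real.exp (ε / 4) := by
        have := Real.exp_lt_exp.2 (show 0 < ε / 4 by linarith)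
        rwa [Real.exp_zero] at this
      calc C = C * 1 := (mul_one C).symm
        _ < C' := mul_lt_mul_of_pos_left h1 hC
    have hlC : Real.log C' = Real.log C + ε / 4 := by
      rw [hC', Real.log_mul hC.ne' (Real.exp_pos _).ne', Real.log_exp]
    have hlow' : ∀ᵐ ω ∂μ, ∀ᶠ n : ℕ in atTop, Nat.Coprime (n + 1) (Q (n + 1)) →
        c' * w n / Real.log n ≤ Pool.Agent.R528.RM.dens μ ℱ A n ω := by
      filter_upwards [hlow] with ω hω
      filter_upwards [hω c' hc'c, hL.eventually_gt_atTop 0] with n h1 h2 h3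
      have h4 := h1 h3
      rw [le_div_iff₀ (hw0 n)] at h4
      rw [div_le_iff₀ h2]
      exact h4
    have hup' : ∀ᵐ ω ∂μ, ∀ᶠ n : ℕ in atTop, Pool.Agent.R528.RM.dens μ ℱ A n ω ≤ C' * w n / Real.log n := by
      filter_upwards [hup] with ω hω
      filter_upwards [hω C' hC'C, hL.eventually_gt_atTop 0] with n h1 h2
      rw [div_le_iff₀ (hw0 n)] at h1
      rw [le_div_iff₀ h2]
      exact h1
    filter_upwards [Pool.Agent.D0H16.CC.lower_main hA hQ hz hw0 hw1 hw2 hc'0 hlow' (ε := ε / 2) (by positivity)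
      (by linarith), Pool.Agent.D0H16.CC.upper_main hA hw0 hw1 hw2 hC'0 hup' (ε := ε / 4) (by positivity)
      (by linarith)] with ω h1 h2
    refine ⟨?_, ?_⟩
    · filter_upwards [h1, Pool.Agent.D0H16.CC.tLL.eventually_gt_atTop 0, hL.eventually_gt_atTop 0,
        eventually_ge_atTop 1] with x g1 g2 g3 g4 H k hH1 hH2 hk
      have e1 : Pool.Agent.D0H16.CC.Del w c' x + ε / 2 = Pool.Agent.D0H16.CC.Del w c x + ε := by
        unfold Pool.Agent.D0H16.CC.Del
        rw [hlc]
        ring
      have g5 : (x : ℝ) ^ (ε / 2) ≤ H := by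
        refine le_trans (Real.rpow_le_rpow_of_exponent_le (by exact_mod_cast g4) (by linarith)) hH1
      obtain ⟨g6, g7⟩ := g1 H k g5 hH2 (by rw [e1]; exact hk)
      refine ⟨g6, le_trans (mul_le_mul_of_nonneg_left ?_ (Nat.cast_nonneg _)) g7⟩
      apply Real.exp_le_exp.2
      rw [e1]
      have g8 : ε / 2 * (Real.log x / Real.log (Real.log x)) ≤ ε * (Real.log x / Real.log (Real.log x)) :=
        mul_le_mul_of_nonneg_right (by linarith) (by positivity)
      linarith
    · filter_upwards [h2] with x g1 n k hn1 hn2 hch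
      have g2 := g1 n k hn1 hn2 hch
      have e1 : Pool.Agent.D0H16.CC.Del w C' x - 3 * (ε / 4) = Pool.Agent.D0H16.CC.Del w C x - ε := by
        unfold Pool.Agent.D0H16.CC.Del
        rw [hlC]
        ring
      rwa [e1] at g2
  filter_upwards [ae_all_iff.2 key] with ω hω ε hε hε1
  obtain ⟨r, hr⟩ := exists_nat_gt (1 / ε)
  obtain ⟨h1, h2⟩ := hω r
  have hr1 : 1 / ((r : ℝ) + 2) ≤ ε := by
    rw [div_le_iff₀ (by positivity)]
    rw [div_lt_iff₀ hε] at hr
    nlinarith
  refine ⟨?_, ?_⟩
  · filter_upwards [h1, eventually_ge_atTop 1, Pool.Agent.D0H16.CC.tLL.eventually_gt_atTop 0,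
      hL.eventually_gt_atTop 0] with x g1 g2 g3 g4 H k hH1 hH2 hk
    rw [count_eq]
    have e1 : Real.log (Real.log x) - Real.log (w x) - Real.log c = Pool.Agent.D0H16.CC.Del w c x := rfl
    rw [e1] at hk ⊢
    have g5 : (x : ℝ) ^ (1 / ((r : ℝ) + 2)) ≤ H :=
      le_trans (Real.rpow_le_rpow_of_exponent_le (by exact_mod_cast g2) hr1) hH1
    have hk0 : (0 : ℝ) ≤ k := Nat.cast_nonneg _
    have g7 : (k : ℝ) * (Pool.Agent.D0H16.CC.Del w c x + 1 / ((r : ℝ) + 2)) ≤
        k * (Pool.Agent.D0H16.CC.Del w c x + ε) := mul_le_mul_of_nonneg_left (by linarith) hk0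
    obtain ⟨g8, g9⟩ := g1 H k g5 hH2 (g7.trans hk)
    refine ⟨g8, le_trans (mul_le_mul_of_nonneg_left ?_ (Nat.cast_nonneg _)) g9⟩
    apply Real.exp_le_exp.2
    have g10 : 1 / ((r : ℝ) + 2) * (Real.log x / Real.log (Real.log x)) ≤
        ε * (Real.log x / Real.log (Real.log x)) := mul_le_mul_of_nonneg_right hr1 (by positivity)
    linarith
  · filter_upwards [h2] with x g1 p k hp1 hp2 hch
    obtain ⟨n, rfl⟩ : ∃ n, p = n + 1 := ⟨p - 1, by omega⟩
    have g2 := g1 n k (by omega) (by omega) ((chain_iff A ω n k).1 hch)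
    have e1 : Real.log (Real.log x) - Real.log (w x) - Real.log C = Pool.Agent.D0H16.CC.Del w C x := rfl
    rw [e1]
    refine le_trans (mul_le_mul_of_nonneg_left ?_ (Nat.cast_nonneg _)) g2
    linarith

end Pool.Agent.Results.MP_9f2731_nt.ModelRecords
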