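import Pool.Agent.D0H61.RO.Final
import Pool.Agent.D0H21.CC.Cnt
import Pool.Agent.D0H42.CC.Zp

/-!
# Cunningham chains with almost all real ratios, every ratio used twice

A Cunningham chain of the second kind of length `k` consists of the primes `n + 1, 2 n + 1, 4 n + 1, …,
2 ^ (k - 1) n + 1`. Here the ratio `2` is replaced by real ratios: for almost every `α > 0` there are infinitely
many `n` such that `n + 1, ⌊α n⌋ + 1, ⌊α ^ 2 n⌋ + 1` are primes, and for almost all `(α₁, …, α_r)` there are
infinitely many chains of `2 r + 1` primes `⌊ρ n⌋ + 1` with the successive ratios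
`α₁, α₁, α₂, α₂, …, α_r, α_r`, for infinitely many `N` at least `δ N / (log N) ^ (2 r + 1)` up to `N`, which is the
expected order of magnitude (part 2); more generally `n` can be taken in any given set which is not too thin, and
the pairs of coefficients can be any triangular system of pairs of monomials with real exponents (part 1).

When every real ratio serves only one prime, results of this kind are known (Harman; `GenericRatios` on this
problem); here one real number has to make two integer parts prime at the same time, for the same `n`.

Proof. (1) First moment: the number of the triples `(n, p, p')`, `n` in the given set `A`, `p, p'` primes, with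
`|φ + κ log p + (1 - κ) log n - log p'| ≤ δ / N` is an integral over products of three Dirichlet polynomials. Because
`κ ≠ 0, 1`, two of them are polynomials over primes, and may be replaced by integrals: the error is small at all
frequencies up to a power of `N` by Vinogradov and Korobov (starting library), and the mean squares of the two others
suffice, whatever the set `A` is. (2) Upper bound: Selberg's sieve for both integer parts, for the elements of an
arbitrary set, in mean over `α`. (3) So in every short interval the `α` with many solutions in a given scale have a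
positive proportion; Lebesgue's density theorem. (4) Since the set `A` is arbitrary, several ratios follow by
induction and Fubini's theorem.
-/

set_option autoImplicit false

namespace Pool.Agent.Results.MP_9f2731_nt.RepeatedRatios

open Filter Topology MeasureTheory Finset
open Pool.Agent.D0H61.CC Pool.Agent.D0H61.RO

theorem t_gen : S_GEN4 :=
  gen4_of_cnt (Pool.Agent.D0H21.CC.t_CNT Pool.Agent.D0H87.CC.t_TRI Pool.Agent.D0H87.CC.t_MS
    Pool.Agent.D0H42.CC.t_ZP)

/-- (1) `A` any set of positive integers such that for some `δ > 0` and infinitely many `N` at least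
`δ N / (log N) ^ C` elements of `A` are at most `N` (`Bg C A`); `r` parameters `α_i`, and for each `j` two monomials
`γ_{j s} ∏ i, α_i ^ (e j s i)` (`s = 0, 1`, `mono (γ j s) (e j s) α`) with positive coefficients, which contain `α_j`
with different nonzero exponents and no later parameter. For almost all `α` with positive entries, the set of the
`n ∈ A` for which all the `2 r` numbers `⌊mono n⌋ + b j s` are primes satisfies `Bg (C + 2 r)`; in particular it is
infinite. (2) `rho α i` is the product of the first `i` terms of `α₀, α₀, α₁, α₁, …, α_{r-1}, α_{r-1}`: for almost all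
positive `α₀, …, α_{r-1}` there are infinitely many `n` (and, for some `δ > 0`, at least
`δ N / (log N) ^ (2 r + 1)` up to `N`, for infinitely many `N`) such that the `2 r + 1` numbers `⌊rho α i * n⌋ + 1`,
`0 ≤ i ≤ 2 r`, are primes. -/
theorem result :
    (∀ (r C : ℕ) (A : Set ℕ), Bg C A → ∀ (γ : Fin r → Fin 2 → ℝ) (e : Fin r → Fin 2 → Fin r → ℝ)
      (b : Fin r → Fin 2 → ℤ), (∀ j s, 0 < γ j s) → (∀ j s i, j < i → e j s i = 0) → (∀ j s, e j s j ≠ 0) →
      (∀ j, e j 0 j ≠ e j 1 j) →
      ∀ᵐ α : Fin r → ℝ, (∀ i, 0 < α i) →
        Bg (C + 2 * r) {n : ℕ | n ∈ A ∧ ∀ j s, PP (⌊mono (γ j s) (e j s) α * n⌋ + b j s)}) ∧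
    (∀ r : ℕ, ∀ᵐ α : Fin r → ℝ, (∀ i, 0 < α i) →
      Bg (2 * r + 1) {n : ℕ | ∀ i : ℕ, i ≤ 2 * r → (⌊rho α i * n⌋₊ + 1).Prime}) :=
  ⟨sys_main4 t_gen, chains4 t_gen⟩

end Pool.Agent.Results.MP_9f2731_nt.RepeatedRatios
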