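import Pool.Agent.D0H51.SS.Low2
import Pool.Agent.Results.MP_9f2731_nt.OrbitPatterns

/-!
# Patterns of primes in Cunningham orbits of the second kind which start in a sparse sequence

`a_t(p) = 2 ^ t * (p - 1) + 1` is the orbit of `p` under `p ↦ 2 p - 1`. The starting result OrbitPatterns prescribes,
up to a bounded error, the exact set of the times `t ≤ R` at which `a_t(p)` is prime, for infinitely many primes `p`.
Here the primes `p` belong to the sparse sequence `⌊α n ^ h⌋`, for almost every real `α > 0` (`h ≥ 1` any real number).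

Proof: OrbitPatterns and the transfer of lower bounds for the counting function of an arbitrary set to almost all
sequences `⌊α n ^ h⌋` (`Pool.Agent.D0H51.SS.low_pow`, from the universal sampling theorem of helper91).
-/

set_option autoImplicit false

namespace Pool.Agent.Results.MP_9f2731_nt.SparseOrbitPatterns

open Filter MeasureTheory Topology Finset

/-- `p` is prime and for all `t ≤ R` the number `a_t(p) = 2 ^ t * (p - 1) + 1` is prime if and only if `t ∈ H` -/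
def Pattern (H : Finset ℕ) (R p : ℕ) : Prop :=
  p.Prime ∧ ∀ t ≤ R, ((2 ^ t * (p - 1) + 1).Prime ↔ t ∈ H)

open Classical in
/-- **Main result.** -/
theorem result (k m : ℕ) : ∃ C : ℕ, ∀ V : Finset ℕ, 0 ∈ V → V.card ≤ k →
    ∃ H : Finset ℕ, 0 ∈ H ∧ (∀ x ∈ V, m ≤ (H.filter (fun h : ℕ => |(h : ℤ) - x| ≤ C)).card) ∧
      (∀ h ∈ H, ∃ x ∈ V, |(h : ℤ) - x| ≤ C) ∧
      ∀ h : ℝ, 1 ≤ h → ∀ᵐ α : ℝ, 0 < α → ∀ (R : ℕ) (η : ℝ), 0 < η → ∃ᶠ N : ℕ in atTop,
        (N : ℝ) ^ (1 - η) ≤ (((Icc 1 N).filter (fun n : ℕ => Pattern H R ⌊α * (n : ℝ) ^ h⌋₊)).card : ℝ) := by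
  obtain ⟨C, hC⟩ := Pool.Agent.Results.MP_9f2731_nt.OrbitPatterns.result k m
  refine ⟨C, fun V hV hVk => ?_⟩
  obtain ⟨H, h1, h2, h3, h4⟩ := hC V hV hVk
  refine ⟨H, h1, h2, h3, fun h hh => ?_⟩
  filter_upwards [Pool.Agent.D0H51.SS.low_pow h hh (fun R => {p : ℕ | Pattern H R p})] with α hα hα0 R η hη
  refine hα hα0 R (fun η' hη' hη1 => ?_) η hη
  have h5 := h4 R η' hη'
  refine tendsto_nat_floor_atTop.frequently ((h5.and_eventually (eventually_ge_atTop (1 : ℝ))).mono ?_)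
  rintro x ⟨hx, hx1⟩
  have h6 : (⌊x⌋₊ : ℝ) ^ (1 - η') ≤ x ^ (1 - η') :=
    Real.rpow_le_rpow (Nat.cast_nonneg _) (Nat.floor_le (by linarith)) (by linarith)
  refine h6.trans (hx.trans (Nat.cast_le.2 ?_))
  rw [← Set.ncard_coe_finset]
  refine Set.ncard_le_ncard ?_ (Finset.finite_toSet _)
  rintro p ⟨h7, h8⟩
  rw [Finset.mem_coe, Finset.mem_filter, Finset.mem_range]
  exact ⟨Nat.lt_succ_of_le (Nat.le_floor h7), h8⟩

end Pool.Agent.Results.MP_9f2731_nt.SparseOrbitPatterns
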